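import Pool.Agent.Helper26.LU.Goals

set_option autoImplicit false

namespace Pool.Agent.Helper58.LU

open _root_.Pool.Agent.Helper26.LU MeasureTheory Matrix Real Filter Topology

/-! ### Torus averages -/

theorem tavg_sub {g h : ℝ → ℝ → ℝ} (hg : Continuous (fun z : ℝ × ℝ => g z.1 z.2))
    (hh : Continuous (fun z : ℝ × ℝ => h z.1 z.2)) :
    tavg (fun x y => g x y - h x y) = tavg g - tavg h := by
  have h1 : (fun x y => g x y - h x y) = (fun x y => g x y + (-1 : ℝ) * h x y) := by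
    ext x y; ring
  rw [h1, tavg_add hg (by fun_prop), tavg_smul]
  ring

theorem tavg_abs_le {f g : ℝ → ℝ → ℝ} (hf : Continuous (fun z : ℝ × ℝ => f z.1 z.2))
    (hg : Continuous (fun z : ℝ × ℝ => g z.1 z.2)) (h : ∀ x y, |f x y| ≤ g x y) :
    |tavg f| ≤ tavg g := by
  have hpi := Real.pi_pos
  have hf' : Continuous (Function.uncurry f) := hf
  have hg' : Continuous (Function.uncurry g) := hg
  have ig : ∀ x, IntervalIntegrable (fun y => g x y) volume 0 (2 * π) := fun x =>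
    (Continuous.comp hg' (by fun_prop : Continuous fun y : ℝ => (x, y))).intervalIntegrable _ _
  have cg := intervalIntegral.continuous_parametric_intervalIntegral_of_continuous' (μ := volume)
    hg' (0 : ℝ) (2 * π)
  have h1 : ∀ x, ‖∫ y in (0 : ℝ)..2 * π, f x y‖ ≤ ∫ y in (0 : ℝ)..2 * π, g x y := fun x =>
    intervalIntegral.norm_integral_le_of_norm_le (by positivity)
      (Filter.Eventually.of_forall fun y _ => h x y) (ig x)
  have h2 : ‖∫ x in (0 : ℝ)..2 * π, ∫ y in (0 : ℝ)..2 * π, f x y‖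
      ≤ ∫ x in (0 : ℝ)..2 * π, ∫ y in (0 : ℝ)..2 * π, g x y :=
    intervalIntegral.norm_integral_le_of_norm_le (by positivity)
      (Filter.Eventually.of_forall fun x _ => h1 x) (cg.intervalIntegrable _ _)
  rw [tavg, tavg, abs_div, abs_of_pos (by positivity : 0 < 4 * π ^ 2)]
  exact div_le_div_of_nonneg_right h2 (by positivity)

/-! ### Determinants -/

theorem det3_le (u v w : V) : |det3 u v w| ≤ 6 * (‖u‖ * ‖v‖ * ‖w‖) := by
  have hu := fun i => coord_le_norm u i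
  have hv := fun i => coord_le_norm v i
  have hw := fun i => coord_le_norm w i
  have key : ∀ i j k : Fin 3, |u i * v j * w k| ≤ ‖u‖ * ‖v‖ * ‖w‖ := by
    intro i j k
    rw [abs_mul, abs_mul]
    exact mul_le_mul (mul_le_mul (hu i) (hv j) (abs_nonneg _) (norm_nonneg _)) (hw k)
      (abs_nonneg _) (mul_nonneg (norm_nonneg _) (norm_nonneg _))
  have e1 : det3 u v w = u 0 * v 1 * w 2 - u 0 * v 2 * w 1 + (u 1 * v 2 * w 0 - u 1 * v 0 * w 2)
      + (u 2 * v 0 * w 1 - u 2 * v 1 * w 0) := by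
    simp only [det3, dotProduct, Fin.sum_univ_three, cross_apply]
    simp
    ring
  have k1 := abs_le.1 (key 0 1 2)
  have k2 := abs_le.1 (key 0 2 1)
  have k3 := abs_le.1 (key 1 2 0)
  have k4 := abs_le.1 (key 1 0 2)
  have k5 := abs_le.1 (key 2 0 1)
  have k6 := abs_le.1 (key 2 1 0)
  rw [e1, abs_le]
  constructor <;> linarith [k1.1, k1.2, k2.1, k2.2, k3.1, k3.2, k4.1, k4.2, k5.1, k5.2, k6.1, k6.2]

theorem det3_sub (u v w u' v' w' : V) : det3 u v w - det3 u' v' w'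
    = det3 (u - u') v w + det3 u' (v - v') w + det3 u' v' (w - w') := by
  simp only [det3, dotProduct, Fin.sum_univ_three, cross_apply]
  simp
  ring

theorem jac_bd {F : ℝ × ℝ → V} {B : ℝ} (hB : 1 ≤ B) (hF : C2bd F B) (z : ℝ × ℝ) :
    |Jac F z| ≤ 6 * B ^ 3 := by
  have hB0 : 0 ≤ B := by linarith
  refine (det3_le _ _ _).trans ?_
  have : ‖dx F z‖ * ‖dy F z‖ * ‖F z‖ ≤ B * B * B :=
    mul_le_mul (mul_le_mul (hF.bx z) (hF.bY z) (norm_nonneg _) hB0) (hF.b0 z)
      (norm_nonneg _) (mul_nonneg hB0 hB0)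
  nlinarith

theorem jac_sub {F G : ℝ × ℝ → V} {B ε : ℝ} (hB : 1 ≤ B) (hF : C2bd F B)
    (hG : C2bd G B) (hn : C1near F G ε) (z : ℝ × ℝ) :
    |Jac F z - Jac G z| ≤ 18 * B ^ 2 * ε := by
  have hB0 : 0 ≤ B := by linarith
  obtain ⟨n0, n1, n2⟩ := hn z
  have hε : 0 ≤ ε := (norm_nonneg _).trans n0
  rw [Jac, Jac, det3_sub]
  have a1 := det3_le (dx F z - dx G z) (dy F z) (F z)
  have a2 := det3_le (dx G z) (dy F z - dy G z) (F z)
  have a3 := det3_le (dx G z) (dy G z) (F z - G z)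
  have b1 : ‖dx F z - dx G z‖ * ‖dy F z‖ * ‖F z‖ ≤ ε * B * B :=
    mul_le_mul (mul_le_mul n1 (hF.bY z) (norm_nonneg _) hε) (hF.b0 z)
      (norm_nonneg _) (mul_nonneg hε hB0)
  have b2 : ‖dx G z‖ * ‖dy F z - dy G z‖ * ‖F z‖ ≤ B * ε * B :=
    mul_le_mul (mul_le_mul (hG.bx z) n2 (norm_nonneg _) hB0) (hF.b0 z)
      (norm_nonneg _) (mul_nonneg hB0 hε)
  have b3 : ‖dx G z‖ * ‖dy G z‖ * ‖F z - G z‖ ≤ B * B * ε :=
    mul_le_mul (mul_le_mul (hG.bx z) (hG.bY z) (norm_nonneg _) hB0) n0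
      (norm_nonneg _) (mul_nonneg hB0 hB0)
  have c1 := abs_add_le (det3 (dx F z - dx G z) (dy F z) (F z)
    + det3 (dx G z) (dy F z - dy G z) (F z)) (det3 (dx G z) (dy G z) (F z - G z))
  have c2 := abs_add_le (det3 (dx F z - dx G z) (dy F z) (F z))
    (det3 (dx G z) (dy F z - dy G z) (F z))
  nlinarith

theorem jac_cont {F : ℝ × ℝ → V} (hF : ContDiff ℝ 2 F) : Continuous (Jac F) := by
  have h1 : Continuous (fun z => fderiv ℝ F z) := hF.continuous_fderiv (by norm_num)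
  have hx : Continuous (dx F) := h1.clm_apply continuous_const
  have hy : Continuous (dy F) := h1.clm_apply continuous_const
  have h0 : Continuous F := hF.continuous
  have hx' : ∀ i, Continuous fun z => dx F z i := fun i => (continuous_apply i).comp hx
  have hy' : ∀ i, Continuous fun z => dy F z i := fun i => (continuous_apply i).comp hy
  have h0' : ∀ i, Continuous fun z => F z i := fun i => (continuous_apply i).comp h0
  have e1 : Jac F = fun z => dx F z 0 * (dy F z 1 * F z 2 - dy F z 2 * F z 1)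
      + dx F z 1 * (dy F z 2 * F z 0 - dy F z 0 * F z 2)
      + dx F z 2 * (dy F z 0 * F z 1 - dy F z 1 * F z 0) := by
    ext z
    simp only [Jac, det3, dotProduct, Fin.sum_univ_three, cross_apply]
    simp
  rw [e1]
  have a0 := hx' 0
  have a1 := hx' 1
  have a2 := hx' 2
  have b0 := hy' 0
  have b1 := hy' 1
  have b2 := hy' 2
  have c0 := h0' 0
  have c1 := h0' 1
  have c2 := h0' 2
  fun_prop

theorem wJ_cont {F : ℝ × ℝ → V} (hF : ContDiff ℝ 2 F) {τ : ℝ} (hτ : 0 < τ) :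
    Continuous (wJ τ F) := by
  have h := jac_cont hF
  unfold wJ
  refine Continuous.div (by fun_prop) (by fun_prop) ?_
  intro z
  have := sq_nonneg (Jac F z)
  positivity

theorem wJ_mem {F : ℝ × ℝ → V} {τ : ℝ} (hτ : 0 < τ) (z : ℝ × ℝ) :
    0 ≤ wJ τ F z ∧ wJ τ F z ≤ 1 ∧ 1 - wJ τ F z = τ / (Jac F z ^ 2 + τ) := by
  have h := sq_nonneg (Jac F z)
  have h2 : 0 < Jac F z ^ 2 + τ := by linarith
  unfold wJ
  refine ⟨by positivity, ?_, ?_⟩
  · rw [div_le_one h2]; linarith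
  · field_simp
    ring

theorem wJ_sub {F G : ℝ × ℝ → V} {B ε τ : ℝ} (hτ : 0 < τ) (hB : 1 ≤ B) (hF : C2bd F B)
    (hG : C2bd G B) (hn : C1near F G ε) (z : ℝ × ℝ) :
    |wJ τ F z - wJ τ G z| ≤ 216 * B ^ 5 * ε / τ := by
  have h1 := jac_bd hB hF z
  have h2 := jac_bd hB hG z
  have h3 := jac_sub hB hF hG hn z
  set a := Jac F z with ha
  set b := Jac G z with hb
  have pa : 0 < a ^ 2 + τ := by positivity
  have pb : 0 < b ^ 2 + τ := by positivity
  have e1 : wJ τ F z - wJ τ G z = τ * ((a + b) * (a - b)) / ((a ^ 2 + τ) * (b ^ 2 + τ)) := by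
    unfold wJ
    rw [← ha, ← hb]
    field_simp
    ring
  rw [e1, abs_div, abs_of_pos (mul_pos pa pb), abs_mul, abs_mul, abs_of_pos hτ, div_le_div_iff₀
    (mul_pos pa pb) hτ]
  have hB0 : 0 ≤ B := by linarith
  have h4 : |a + b| ≤ 12 * B ^ 3 := (abs_add_le a b).trans (by linarith)
  have h5 : |a + b| * |a - b| ≤ 12 * B ^ 3 * (18 * B ^ 2 * ε) :=
    mul_le_mul h4 h3 (abs_nonneg _) (by positivity)
  have h6 : τ * τ ≤ (a ^ 2 + τ) * (b ^ 2 + τ) := by
    nlinarith [mul_nonneg (sq_nonneg a) (sq_nonneg b), mul_nonneg (sq_nonneg a) hτ.le,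
      mul_nonneg (sq_nonneg b) hτ.le]
  have h7 : 0 ≤ |a + b| * |a - b| := by positivity
  calc τ * (|a + b| * |a - b|) * τ = (|a + b| * |a - b|) * (τ * τ) := by ring
    _ ≤ (12 * B ^ 3 * (18 * B ^ 2 * ε)) * ((a ^ 2 + τ) * (b ^ 2 + τ)) :=
        mul_le_mul h5 h6 (by positivity) (h7.trans h5)
    _ = _ := by ring

theorem C2bd.mono {E : Type} [NormedAddCommGroup E] [NormedSpace ℝ E] {F : ℝ × ℝ → E} {B B' : ℝ}
    (h : C2bd F B) (hB : B ≤ B') : C2bd F B' :=
  ⟨h.smooth, h.per, fun z => (h.b0 z).trans hB, fun z => (h.bx z).trans hB,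
    fun z => (h.bY z).trans hB, fun z => (h.bxx z).trans hB, fun z => (h.bxy z).trans hB,
    fun z => (h.byx z).trans hB, fun z => (h.byy z).trans hB⟩

/-! ### The limit of the weights -/

theorem K_tendsto {J : ℝ × ℝ → ℝ} (hJ : Continuous J) (h0 : ∀ᵐ z : ℝ × ℝ, J z ≠ 0) :
    Tendsto (fun n : ℕ => tavg (fun x y => (1 / ((n : ℝ) + 1)) / (J (x, y) ^ 2
      + 1 / ((n : ℝ) + 1)))) atTop (𝓝 0) := by
  have hpi := Real.pi_pos
  have hτ : ∀ n : ℕ, 0 < 1 / ((n : ℝ) + 1) := fun n => by positivity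
  have hτ0 : Tendsto (fun n : ℕ => 1 / ((n : ℝ) + 1)) atTop (𝓝 0) :=
    tendsto_one_div_add_atTop_nhds_zero_nat
  have hcont : ∀ n : ℕ, Continuous (Function.uncurry fun x y => (1 / ((n : ℝ) + 1)) /
      (J (x, y) ^ 2 + 1 / ((n : ℝ) + 1))) := by
    intro n
    have : (Function.uncurry fun x y => (1 / ((n : ℝ) + 1)) /
      (J (x, y) ^ 2 + 1 / ((n : ℝ) + 1))) = fun z : ℝ × ℝ => (1 / ((n : ℝ) + 1)) /
      (J z ^ 2 + 1 / ((n : ℝ) + 1)) := by
      ext z; rfl
    rw [this]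
    refine Continuous.div continuous_const (by fun_prop) ?_
    intro z
    have := sq_nonneg (J z)
    have := hτ n
    linarith
  have hbd : ∀ (n : ℕ) (x y : ℝ), ‖(1 / ((n : ℝ) + 1)) /
      (J (x, y) ^ 2 + 1 / ((n : ℝ) + 1))‖ ≤ 1 := by
    intro n x y
    have h1 := sq_nonneg (J (x, y))
    have h2 := hτ n
    have h3 : 0 < J (x, y) ^ 2 + 1 / ((n : ℝ) + 1) := by linarith
    rw [Real.norm_eq_abs, abs_of_nonneg (div_nonneg h2.le h3.le), div_le_one h3]
    linarith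
  have h0' : ∀ᵐ x : ℝ, ∀ᵐ y : ℝ, J (x, y) ≠ 0 := by
    rw [Measure.volume_eq_prod] at h0
    exact Measure.ae_ae_of_ae_prod h0
  have inner : ∀ x : ℝ, (∀ᵐ y : ℝ, J (x, y) ≠ 0) →
      Tendsto (fun n : ℕ => ∫ y in (0 : ℝ)..2 * π, (1 / ((n : ℝ) + 1)) / (J (x, y) ^ 2
        + 1 / ((n : ℝ) + 1))) atTop (𝓝 0) := by
    intro x hx
    have h1 : Tendsto (fun n : ℕ => ∫ y in (0 : ℝ)..2 * π, (1 / ((n : ℝ) + 1)) / (J (x, y) ^ 2
        + 1 / ((n : ℝ) + 1))) atTop (𝓝 (∫ _y in (0 : ℝ)..2 * π, (0 : ℝ))) := by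
      apply intervalIntegral.tendsto_integral_filter_of_dominated_convergence (fun _ => (1 : ℝ))
      · exact Filter.Eventually.of_forall fun n =>
          (Continuous.comp (hcont n) (by fun_prop : Continuous fun y : ℝ => (x, y))
            ).aestronglyMeasurable
      · exact Filter.Eventually.of_forall fun n => Filter.Eventually.of_forall fun y _ => hbd n x y
      · exact continuous_const.intervalIntegrable _ _
      · filter_upwards [hx] with y hy _
        have hJ2 : J (x, y) ^ 2 + 0 ≠ 0 := by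
          rw [add_zero]; exact pow_ne_zero 2 hy
        have h9 := hτ0.div ((tendsto_const_nhds (x := J (x, y) ^ 2)).add hτ0) hJ2
        rw [zero_div] at h9
        exact h9
    simpa using h1
  have outer : Tendsto (fun n : ℕ => ∫ x in (0 : ℝ)..2 * π, ∫ y in (0 : ℝ)..2 * π,
      (1 / ((n : ℝ) + 1)) / (J (x, y) ^ 2 + 1 / ((n : ℝ) + 1))) atTop
      (𝓝 (∫ _x in (0 : ℝ)..2 * π, (0 : ℝ))) := by
    apply intervalIntegral.tendsto_integral_filter_of_dominated_convergence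
      (fun _ => (1 : ℝ) * |2 * π - 0|)
    · exact Filter.Eventually.of_forall fun n =>
        (intervalIntegral.continuous_parametric_intervalIntegral_of_continuous' (μ := volume)
          (hcont n) (0 : ℝ) (2 * π)).aestronglyMeasurable
    · exact Filter.Eventually.of_forall fun n => Filter.Eventually.of_forall fun x _ =>
        intervalIntegral.norm_integral_le_of_norm_le_const fun y _ => hbd n x y
    · exact continuous_const.intervalIntegrable _ _
    · filter_upwards [h0'] with x hx _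
      exact inner x hx
  have h2 := outer.div_const (4 * π ^ 2)
  simpa [tavg] using h2

/-! ### Lower bound on the torus -/

theorem exists_lower {F : ℝ × ℝ → V} (hF : Continuous F) (hp : Per2 F) (h0 : ∀ z, F z ≠ 0) :
    ∃ m : ℝ, 0 < m ∧ ∀ z, m ≤ ‖F z‖ := by
  have hpi := Real.pi_pos
  have hK : IsCompact (Set.Icc (0 : ℝ) (2 * π) ×ˢ Set.Icc (0 : ℝ) (2 * π)) :=
    isCompact_Icc.prod isCompact_Icc
  have hne : (Set.Icc (0 : ℝ) (2 * π) ×ˢ Set.Icc (0 : ℝ) (2 * π)).Nonempty :=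
    ⟨(0, 0), by constructor <;> constructor <;> simp <;> positivity⟩
  obtain ⟨z0, _, hz0⟩ := hK.exists_isMinOn hne (hF.norm.continuousOn)
  refine ⟨‖F z0‖, norm_pos_iff.2 (h0 z0), ?_⟩
  rintro ⟨x, y⟩
  have p1 : Function.Periodic (fun x => F (x, y)) (2 * π) := fun x => (hp x y).1
  obtain ⟨x', hx', e1⟩ := p1.exists_mem_Ico₀ (by positivity) x
  have p2 : Function.Periodic (fun y => F (x', y)) (2 * π) := fun y => (hp x' y).2
  obtain ⟨y', hy', e2⟩ := p2.exists_mem_Ico₀ (by positivity) y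
  have e3 : F (x, y) = F (x', y') := by
    have a1 : F (x, y) = F (x', y) := e1
    have a2 : F (x', y) = F (x', y') := e2
    rw [a1, a2]
  rw [e3]
  exact hz0 (a := (x', y')) ⟨⟨hx'.1, hx'.2.le⟩, ⟨hy'.1, hy'.2.le⟩⟩

/-! ### The weighted difference -/

theorem main_est {B τ C : ℝ} (hB : 1 ≤ B) (hτ : 0 < τ) (hC : 0 < C)
    (hT1c : G_T1c)
    (hb : ∀ (F₀ F₁ : ℝ × ℝ → V) (h : ℝ × ℝ → ℝ), C2bd F₀ B → C2bd F₁ B → C2bd h B →
      (∀ s ∈ Set.Icc (0 : ℝ) 1, ∀ z, F₀ z + s • (F₁ z - F₀ z) ≠ 0) →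
      ∀ (g : V → ℝ) (E : ℝ), ContDiff ℝ 1 g → (∀ u ∈ sph, |g u| ≤ E) →
      ∀ ε : ℝ, 0 ≤ ε → C1near F₁ F₀ ε →
      |tavg (fun x y => h (x, y) * (wJ τ F₁ (x, y) * g (proj (F₁ (x, y)))
          - wJ τ F₀ (x, y) * g (proj (F₀ (x, y)))))| ≤ C * ε * E)
    {F₀ F₁ : ℝ × ℝ → V} {h₀ h₁ : ℝ × ℝ → ℝ} {m ε : ℝ} (hF0 : C2bd F₀ B) (hF1 : C2bd F₁ B)
    (hh0 : C2bd h₀ B) (hh1 : C2bd h₁ B) (hm : ∀ z, m ≤ ‖F₀ z‖) (hε0 : 0 ≤ ε) (hεm : ε < m)
    (nF : C1near F₁ F₀ ε) (nh : C1near h₁ h₀ ε) {g : V → ℝ} {E : ℝ} (hg : ContinuousOn g sph)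
    (hE : ∀ u ∈ sph, |g u| ≤ E) :
    |tavg (fun x y => h₁ (x, y) * g (proj (F₁ (x, y))))
        - tavg (fun x y => h₀ (x, y) * g (proj (F₀ (x, y))))|
      ≤ ε * E + C * ε * E + B * E * (2 * tavg (fun x y => τ / (Jac F₀ (x, y) ^ 2 + τ))
        + 216 * B ^ 5 * ε / τ) := by
  have hE0 : 0 ≤ E := (abs_nonneg _).trans (hE (e 0) (e_sph 0))
  have hB0 : 0 ≤ B := by linarith
  have hom : ∀ s ∈ Set.Icc (0 : ℝ) 1, ∀ z, F₀ z + s • (F₁ z - F₀ z) ≠ 0 := by
    intro s hs z hz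
    have h1 : F₀ z = -(s • (F₁ z - F₀ z)) := eq_neg_of_add_eq_zero_left hz
    have h2 : ‖F₀ z‖ ≤ ε := by
      rw [h1, norm_neg, norm_smul, Real.norm_eq_abs, abs_of_nonneg hs.1]
      have h3 := (nF z).1
      have h4 := norm_nonneg (F₁ z - F₀ z)
      nlinarith [hs.2]
    linarith [hm z]
  have nz0 : ∀ z, F₀ z ≠ 0 := by
    intro z
    have := hom 0 ⟨le_refl _, zero_le_one⟩ z
    simpa using this
  have nz1 : ∀ z, F₁ z ≠ 0 := by
    intro z
    have := hom 1 ⟨zero_le_one, le_refl _⟩ z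
    simpa using this
  have cF0 : Continuous F₀ := hF0.smooth.continuous
  have cF1 : Continuous F₁ := hF1.smooth.continuous
  have ch0 : Continuous h₀ := hh0.smooth.continuous
  have ch1 : Continuous h₁ := hh1.smooth.continuous
  have cg0 : Continuous (fun z => g (proj (F₀ z))) := cont_comp hg cF0 nz0
  have cg1 : Continuous (fun z => g (proj (F₁ z))) := cont_comp hg cF1 nz1
  have cw0 : Continuous (wJ τ F₀) := wJ_cont hF0.smooth hτ
  have cw1 : Continuous (wJ τ F₁) := wJ_cont hF1.smooth hτ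
  have bg0 : ∀ z, |g (proj (F₀ z))| ≤ E := fun z => hE _ (proj_sph (nz0 z))
  have bg1 : ∀ z, |g (proj (F₁ z))| ≤ E := fun z => hE _ (proj_sph (nz1 z))
  -- decomposition
  set A1 : ℝ → ℝ → ℝ := fun x y => (h₁ (x, y) - h₀ (x, y)) * g (proj (F₁ (x, y))) with hA1
  set A2 : ℝ → ℝ → ℝ := fun x y => h₀ (x, y) * (wJ τ F₁ (x, y) * g (proj (F₁ (x, y)))
    - wJ τ F₀ (x, y) * g (proj (F₀ (x, y)))) with hA2
  set A3 : ℝ → ℝ → ℝ := fun x y => h₀ (x, y) * ((1 - wJ τ F₁ (x, y)) * g (proj (F₁ (x, y)))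
    - (1 - wJ τ F₀ (x, y)) * g (proj (F₀ (x, y)))) with hA3
  have c1 : Continuous (fun z : ℝ × ℝ => A1 z.1 z.2) := by
    have : (fun z : ℝ × ℝ => A1 z.1 z.2) = fun z => (h₁ z - h₀ z) * g (proj (F₁ z)) := rfl
    rw [this]; exact (ch1.sub ch0).mul cg1
  have c2 : Continuous (fun z : ℝ × ℝ => A2 z.1 z.2) := by
    have : (fun z : ℝ × ℝ => A2 z.1 z.2) = fun z => h₀ z * (wJ τ F₁ z * g (proj (F₁ z))
      - wJ τ F₀ z * g (proj (F₀ z))) := rfl
    rw [this]; exact ch0.mul ((cw1.mul cg1).sub (cw0.mul cg0))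
  have c3 : Continuous (fun z : ℝ × ℝ => A3 z.1 z.2) := by
    have : (fun z : ℝ × ℝ => A3 z.1 z.2) = fun z => h₀ z * ((1 - wJ τ F₁ z) * g (proj (F₁ z))
      - (1 - wJ τ F₀ z) * g (proj (F₀ z))) := rfl
    rw [this]
    exact ch0.mul (((continuous_const.sub cw1).mul cg1).sub ((continuous_const.sub cw0).mul cg0))
  have dec : tavg (fun x y => h₁ (x, y) * g (proj (F₁ (x, y))))
        - tavg (fun x y => h₀ (x, y) * g (proj (F₀ (x, y)))) = tavg A1 + tavg A2 + tavg A3 := by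
    rw [← tavg_sub (g := fun x y => h₁ (x, y) * g (proj (F₁ (x, y))))
      (h := fun x y => h₀ (x, y) * g (proj (F₀ (x, y)))) (ch1.mul cg1) (ch0.mul cg0),
      ← tavg_add c1 c2, ← tavg_add (c1.add c2) c3]
    congr 1
    ext x y
    simp only [hA1, hA2, hA3]
    ring
  -- first term
  have t1 : |tavg A1| ≤ ε * E := by
    apply tavg_le
    intro x y
    simp only [hA1]
    rw [abs_mul]
    have := (nh (x, y)).1
    rw [Real.norm_eq_abs] at this
    exact mul_le_mul this (bg1 _) (abs_nonneg _) hε0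
  -- second term
  have t2 : |tavg A2| ≤ C * ε * E := by
    apply le_of_forall_pos_le_add
    intro δ hδ
    set ε2 : ℝ := δ / (C * ε + 2 * B) with hε2
    have hden : 0 < C * ε + 2 * B := by positivity
    have hε2p : 0 < ε2 := by positivity
    obtain ⟨g', hg', hgg'⟩ := hT1c g hg ε2 hε2p
    have hE' : ∀ u ∈ sph, |g' u| ≤ E + ε2 := by
      intro u hu
      have a1 := hE u hu
      have a2 := hgg' u hu
      rw [abs_le] at a1 a2 ⊢
      constructor <;> linarith [a1.1, a1.2, a2.1, a2.2]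
    have k1 := hb F₀ F₁ h₀ hF0 hF1 hh0 hom g' (E + ε2) hg' hE' ε hε0 nF
    set A2' : ℝ → ℝ → ℝ := fun x y => h₀ (x, y) * (wJ τ F₁ (x, y) * g' (proj (F₁ (x, y)))
      - wJ τ F₀ (x, y) * g' (proj (F₀ (x, y)))) with hA2'
    have cg0' : Continuous (fun z => g' (proj (F₀ z))) :=
      cont_comp hg'.continuous.continuousOn cF0 nz0
    have cg1' : Continuous (fun z => g' (proj (F₁ z))) :=
      cont_comp hg'.continuous.continuousOn cF1 nz1
    have c2' : Continuous (fun z : ℝ × ℝ => A2' z.1 z.2) := by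
      have : (fun z : ℝ × ℝ => A2' z.1 z.2) = fun z => h₀ z * (wJ τ F₁ z * g' (proj (F₁ z))
        - wJ τ F₀ z * g' (proj (F₀ z))) := rfl
      rw [this]; exact ch0.mul ((cw1.mul cg1').sub (cw0.mul cg0'))
    have k2 : |tavg (fun x y => A2 x y - A2' x y)| ≤ 2 * B * ε2 := by
      apply tavg_le
      intro x y
      have e1 : A2 x y - A2' x y = h₀ (x, y) * (wJ τ F₁ (x, y) *
          (g (proj (F₁ (x, y))) - g' (proj (F₁ (x, y))))
          - wJ τ F₀ (x, y) * (g (proj (F₀ (x, y))) - g' (proj (F₀ (x, y))))) := by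
        simp only [hA2, hA2']
        ring
      rw [e1, abs_mul]
      have b0 := hh0.b0 (x, y)
      rw [Real.norm_eq_abs] at b0
      have w1 := wJ_mem (F := F₁) hτ (x, y)
      have w0 := wJ_mem (F := F₀) hτ (x, y)
      have q1 := hgg' _ (proj_sph (nz1 (x, y)))
      have q0 := hgg' _ (proj_sph (nz0 (x, y)))
      have r1 : |wJ τ F₁ (x, y) * (g (proj (F₁ (x, y))) - g' (proj (F₁ (x, y))))| ≤ ε2 := by
        rw [abs_mul, abs_of_nonneg w1.1]
        have := mul_le_mul w1.2.1 q1 (abs_nonneg _) zero_le_one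
        linarith
      have r0 : |wJ τ F₀ (x, y) * (g (proj (F₀ (x, y))) - g' (proj (F₀ (x, y))))| ≤ ε2 := by
        rw [abs_mul, abs_of_nonneg w0.1]
        have := mul_le_mul w0.2.1 q0 (abs_nonneg _) zero_le_one
        linarith
      have r2 := (abs_sub (wJ τ F₁ (x, y) * (g (proj (F₁ (x, y))) - g' (proj (F₁ (x, y)))))
        (wJ τ F₀ (x, y) * (g (proj (F₀ (x, y))) - g' (proj (F₀ (x, y))))))
      calc _ ≤ B * (2 * ε2) := mul_le_mul b0 (r2.trans (by linarith)) (abs_nonneg _) hB0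
        _ = _ := by ring
    rw [tavg_sub c2 c2'] at k2
    have k3 : |tavg A2| ≤ |tavg A2 - tavg A2'| + |tavg A2'| := by
      have := abs_add_le (tavg A2 - tavg A2') (tavg A2')
      rwa [sub_add_cancel] at this
    have k4 : (C * ε + 2 * B) * ε2 = δ := by
      rw [hε2]; field_simp
    nlinarith
  -- third term
  have t3 : |tavg A3| ≤ B * E * (2 * tavg (fun x y => τ / (Jac F₀ (x, y) ^ 2 + τ))
        + 216 * B ^ 5 * ε / τ) := by
    have cJ := jac_cont hF0.smooth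
    have ck : Continuous (fun z : ℝ × ℝ => τ / (Jac F₀ z ^ 2 + τ)) := by
      refine Continuous.div continuous_const (by fun_prop) ?_
      intro z
      have := sq_nonneg (Jac F₀ z)
      positivity
    have k1 : |tavg A3| ≤ tavg (fun x y => 2 * (B * E) * (τ / (Jac F₀ (x, y) ^ 2 + τ))
        + B * E * (216 * B ^ 5 * ε / τ)) := by
      apply tavg_abs_le c3
      · have : (fun z : ℝ × ℝ => 2 * (B * E) * (τ / (Jac F₀ (z.1, z.2) ^ 2 + τ))
            + B * E * (216 * B ^ 5 * ε / τ)) = fun z => 2 * (B * E) * (τ / (Jac F₀ z ^ 2 + τ))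
            + B * E * (216 * B ^ 5 * ε / τ) := rfl
        rw [this]
        exact (continuous_const.mul ck).add continuous_const
      · intro x y
        simp only [hA3]
        rw [abs_mul]
        have b0 := hh0.b0 (x, y)
        rw [Real.norm_eq_abs] at b0
        have w1 := wJ_mem (F := F₁) hτ (x, y)
        have w0 := wJ_mem (F := F₀) hτ (x, y)
        have ws := wJ_sub hτ hB hF1 hF0 nF (x, y)
        have q1 := bg1 (x, y)
        have q0 := bg0 (x, y)
        rw [← w0.2.2]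
        have r1 : |(1 - wJ τ F₁ (x, y)) * g (proj (F₁ (x, y)))|
            ≤ (1 - wJ τ F₁ (x, y)) * E := by
          rw [abs_mul, abs_of_nonneg (by linarith [w1.2.1])]
          exact mul_le_mul_of_nonneg_left q1 (by linarith [w1.2.1])
        have r0 : |(1 - wJ τ F₀ (x, y)) * g (proj (F₀ (x, y)))|
            ≤ (1 - wJ τ F₀ (x, y)) * E := by
          rw [abs_mul, abs_of_nonneg (by linarith [w0.2.1])]
          exact mul_le_mul_of_nonneg_left q0 (by linarith [w0.2.1])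
        have r2 := (abs_sub ((1 - wJ τ F₁ (x, y)) * g (proj (F₁ (x, y))))
          ((1 - wJ τ F₀ (x, y)) * g (proj (F₀ (x, y)))))
        have r3 : 1 - wJ τ F₁ (x, y) ≤ (1 - wJ τ F₀ (x, y)) + 216 * B ^ 5 * ε / τ := by
          have := (abs_le.1 ws).1
          linarith
        have r4 : |(1 - wJ τ F₁ (x, y)) * g (proj (F₁ (x, y)))
            - (1 - wJ τ F₀ (x, y)) * g (proj (F₀ (x, y)))|
            ≤ (2 * (1 - wJ τ F₀ (x, y)) + 216 * B ^ 5 * ε / τ) * E := by
          refine r2.trans ?_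
          have := mul_le_mul_of_nonneg_right r3 hE0
          nlinarith
        calc _ ≤ B * ((2 * (1 - wJ τ F₀ (x, y)) + 216 * B ^ 5 * ε / τ) * E) :=
              mul_le_mul b0 r4 (abs_nonneg _) hB0
          _ = _ := by ring
    refine k1.trans (le_of_eq ?_)
    rw [tavg_add (g := fun x y => 2 * (B * E) * (τ / (Jac F₀ (x, y) ^ 2 + τ)))
      (h := fun _ _ => B * E * (216 * B ^ 5 * ε / τ)) (continuous_const.mul ck) continuous_const,
      tavg_smul, tavg_const]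
    ring
  rw [dec]
  refine (abs_add_le _ _).trans ?_
  have := abs_add_le (tavg A1) (tavg A2)
  linarith

theorem gT1 (hb : G_T1b) (hc : G_T1c) (he : G_T1e) : G_T1 := by
  intro N F h p₀ hFp hhp hFs hhs hnz hjac η hη
  obtain ⟨B1, hB1, hF1⟩ := he V N F p₀ hFp hFs
  obtain ⟨B2, hB2, hh1⟩ := he ℝ N h p₀ hhp hhs
  set B := max B1 B2 with hBdef
  have hB : 1 ≤ B := hB1.trans (le_max_left _ _)
  have hF0 : C2bd (fun z => F (p₀, z)) B :=
    (C2bd.mono (hF1 1 one_pos).self_of_nhds.1 (le_max_left _ _))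
  have hh0 : C2bd (fun z => h (p₀, z)) B :=
    (C2bd.mono (hh1 1 one_pos).self_of_nhds.1 (le_max_right _ _))
  have cF0 : Continuous (fun z => F (p₀, z)) := hF0.smooth.continuous
  obtain ⟨m, hm, hmF⟩ := exists_lower cF0 (hFp p₀) hnz
  have hK := K_tendsto (jac_cont hF0.smooth) hjac
  have hBp : 0 < B := by linarith
  have hev := hK.eventually (gt_mem_nhds (show (0 : ℝ) < η / (8 * B) by positivity))
  obtain ⟨n, hn⟩ := hev.exists
  set τ : ℝ := 1 / ((n : ℝ) + 1) with hτdef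
  have hτ : 0 < τ := by positivity
  obtain ⟨C, hC, hCb⟩ := hb B hB τ hτ
  set D : ℝ := 1 + C + 216 * B ^ 6 / τ with hD
  have hDp : 0 < D := by positivity
  set ε : ℝ := min (m / 2) (η / (2 * D)) with hε
  have hεp : 0 < ε := by
    rw [hε]; exact lt_min (by positivity) (by positivity)
  have hεm : ε < m := (min_le_left _ _).trans_lt (by linarith)
  have hεD : ε * D ≤ η / 2 := by
    calc ε * D ≤ η / (2 * D) * D := mul_le_mul_of_nonneg_right (min_le_right _ _) hDp.le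
      _ = η / 2 := by field_simp
  filter_upwards [hF1 ε hεp, hh1 ε hεp] with p hpF hph
  have hFB : C2bd (fun z => F (p, z)) B := C2bd.mono hpF.1 (le_max_left _ _)
  have hhB : C2bd (fun z => h (p, z)) B := C2bd.mono hph.1 (le_max_right _ _)
  have hne : ∀ z, F (p, z) ≠ 0 := by
    intro z hz
    have h1 := (hpF.2 z).1
    simp only [hz, zero_sub, norm_neg] at h1
    linarith [hmF z]
  refine ⟨hFB.smooth.continuous, hhB.smooth.continuous, hne, ?_⟩
  intro g E hg hE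
  have hE0 : 0 ≤ E := (abs_nonneg _).trans (hE (e 0) (e_sph 0))
  have key := main_est hB hτ hC hc hCb hF0 hFB hh0 hhB hmF hεp.le hεm hpF.2 hph.2 hg hE
  refine key.trans ?_
  set K : ℝ := tavg (fun x y => τ / (Jac (fun z => F (p₀, z)) (x, y) ^ 2 + τ)) with hKdef
  have hK2 : B * K ≤ η / 8 := by
    have h1 : K ≤ η / (8 * B) := hn.le
    calc B * K ≤ B * (η / (8 * B)) := mul_le_mul_of_nonneg_left h1 hBp.le
      _ = η / 8 := by field_simp
  have e1 : ε * E + C * ε * E + B * E * (2 * K + 216 * B ^ 5 * ε / τ)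
      = (ε * D + 2 * (B * K)) * E := by
    rw [hD]; field_simp; ring
  rw [e1]
  apply mul_le_mul_of_nonneg_right _ hE0
  linarith

end Pool.Agent.Helper58.LU
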